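import Mathlib

set_option autoImplicit false

namespace Pool.Agent.Results.MP_1e2692_co.ActiveBeatsPassive

/-- `CopWin R c r`: with the cops at the positions `c`, the robber at `r` and the cops to move,
the cops can force a capture, when every single move of a cop and of the robber goes from a
vertex `u` to a vertex `v` with `R u v`. -/
inductive CopWin {V : Type*} (R : V → V → Prop) {k : ℕ} : (Fin k → V) → V → Prop
  | caught (c : Fin k → V) (r : V) (i : Fin k) (h : c i = r) : CopWin R c r
  | capture (c c' : Fin k → V) (r : V) (hstep : ∀ i, R (c i) (c' i)) (i : Fin k)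
      (h : c' i = r) : CopWin R c r
  | chase (c c' : Fin k → V) (r : V) (hstep : ∀ i, R (c i) (c' i))
      (h : ∀ r', R r r' → CopWin R c' r') : CopWin R c r

/-- `k` cops win: they can choose starting vertices such that, wherever the robber starts,
they can force a capture (cops moving first). -/
def CopsWin {V : Type*} (R : V → V → Prop) (k : ℕ) : Prop :=
  ∃ c : Fin k → V, ∀ r, CopWin R c r

/-- The cop number `c(G)` (passive game: move to a neighbour or stay put). -/
noncomputable def passiveCopNumber {V : Type*} (G : SimpleGraph V) : ℕ :=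
  sInf {k | CopsWin (fun u v => u = v ∨ G.Adj u v) k}

/-- The fully active cop number `c'(G)` (everybody has to move to a neighbour). -/
noncomputable def activeCopNumber {V : Type*} (G : SimpleGraph V) : ℕ :=
  sInf {k | CopsWin G.Adj k}

/-! ### The graph -/

/-- Neighbour lists. -/
def nb (i : ℕ) : List ℕ :=
  List.getD
    [[9, 12, 16],
     [11, 16, 17],
     [11, 12, 14],
     [12, 13, 15, 17],
     [9, 13, 14, 17],
     [10, 12, 13, 14],
     [9, 11, 15],
     [14, 15, 16],
     [13, 14, 15],
     [0, 4, 6],
     [5],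
     [1, 2, 6],
     [0, 2, 3, 5],
     [3, 4, 5, 8],
     [2, 4, 5, 7, 8],
     [3, 6, 7, 8],
     [0, 1, 7],
     [1, 3, 4]] i []

/-- Closed neighbour lists. -/
def nbc (i : ℕ) : List ℕ := i :: nb i

/-- The graph: bipartite with parts `0, …, 8` and `9, …, 17`. -/
def G : SimpleGraph (Fin 18) where
  Adj u v := (v : ℕ) ∈ nb u
  symm := ⟨by decide +kernel⟩
  loopless := ⟨by decide +kernel⟩

theorem adj_iff (u v : Fin 18) : G.Adj u v ↔ (v : ℕ) ∈ nb u := Iff.rfl

theorem nb_lt : ∀ u : Fin 18, ∀ x ∈ nb u, x < 18 := by decide +kernel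

/-! ### Two cops lose the passive game -/

/-- The set of safe positions (cops to move) of the passive game, as a bit table. -/
def safeTable : ℕ :=
  18755055656857233189066514040108897269478597808715428907326273688570927625889110540995665573314763543125824675380640206379803236979965257667048257852244819432086568419571242181018446027561665698745306655899533796036596229604127641848570260363672233674756609238330986396808307386992439289849723736564959920937039867816101996474116826841126721139764246657213121852247927943115268517009155134549207379765767582905351930984315884428103062264602308107630243756507149426254852703724212329245454764784295707475341816033665886406984552374882289512744363883939569502173758124712849920648342385286252268893582569992029414891586049403510233826163002396608664169725864760592882421707007580961665487124517748752865289516144479482516387487265167758578449181378861851175203242162960104231377247827918562745086586145268940852201740223221838087372209518450096437046985721889999109652542856762581177950062066102671529755273119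81919360012706554225883759132062833705298443967869053175148202013811010373898199335987957968755009225622950778686369124356267603455739576878824323568413823525820485767485215956471036459270189265564737631768355501783907691194235735673403129235915621140146205883668847673237074144443904468281506671856418532612730985244580196895250047502229686984132289316632080613465006535083849372539631061800407198903113253366363057961395910905218794331883854137856348338273932201714776311587622213370144206081729726231340004667413817854631875183165472082393966684592318900893489523386272239095954765327493590351671425831987538357977359023960482040322862971393793440294458694499013264789191767318717839467653285034814372604818870242419283443804088693343245582823503599127962339954458468895853324613170135255366908875658265339657540217573658485080633123313523280382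

def safe (a b r : ℕ) : Bool := safeTable.testBit (18 * (18 * a + b) + r)

def safeCheck : Bool :=
  (List.range 18).all fun a => (List.range 18).all fun b => (List.range 18).all fun r =>
    !(safe a b r) || (a != r && b != r &&
      ((nbc a).all fun a' => (nbc b).all fun b' => a' != r && b' != r &&
        (nbc r).any fun r' => safe a' b' r'))

theorem safeCheck_true : safeCheck = true := by decide +kernel

def startCheck : Bool :=
  (List.range 18).all fun a => (List.range 18).all fun b => (List.range 18).any fun r => safe a b r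

theorem startCheck_true : startCheck = true := by decide +kernel

theorem safe_spec (a b r : Fin 18) (h : safe a b r = true) :
    a ≠ r ∧ b ≠ r ∧ ∀ a' ∈ nbc a, ∀ b' ∈ nbc b, a' ≠ r ∧ b' ≠ r ∧
      ∃ r' ∈ nbc r, safe a' b' r' = true := by
  have h0 := safeCheck_true
  unfold safeCheck at h0
  simp only [List.all_eq_true, List.mem_range, Bool.or_eq_true, Bool.not_eq_true',
    Bool.and_eq_true, bne_iff_ne, ne_eq, List.any_eq_true] at h0
  rcases h0 a a.2 b b.2 r r.2 with h1 | ⟨⟨h1, h2⟩, h3⟩
  · rw [h] at h1
    exact absurd h1 (by simp)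
  · refine ⟨fun e => h1 (by rw [e]), fun e => h2 (by rw [e]), fun a' ha' b' hb' => ?_⟩
    obtain ⟨⟨h4, h5⟩, h6⟩ := h3 a' ha' b' hb'
    exact ⟨h4, h5, h6⟩

/-- The move relation of the passive game. -/
abbrev P : Fin 18 → Fin 18 → Prop := fun u v => u = v ∨ G.Adj u v

theorem P_nbc {u v : Fin 18} (h : P u v) : (v : ℕ) ∈ nbc u := by
  rcases h with h | h
  · rw [h]; exact List.mem_cons_self
  · exact List.mem_cons_of_mem _ h

theorem nbc_P {u : Fin 18} {x : ℕ} (h : x ∈ nbc u) : ∃ v : Fin 18, (v : ℕ) = x ∧ P u v := by
  rcases List.mem_cons.1 h with h | h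
  · exact ⟨u, h.symm, Or.inl rfl⟩
  · exact ⟨⟨x, nb_lt u x h⟩, rfl, Or.inr h⟩

theorem no_win : ∀ (c : Fin 2 → Fin 18) (r : Fin 18), CopWin P c r →
    safe (c 0) (c 1) r = true → False := by
  intro c r hw
  induction hw with
  | caught c r i h =>
    intro hs
    obtain ⟨h1, h2, -⟩ := safe_spec _ _ _ hs
    fin_cases i
    · exact h1 h
    · exact h2 h
  | capture c c' r hstep i h =>
    intro hs
    obtain ⟨-, -, h3⟩ := safe_spec _ _ _ hs
    obtain ⟨h4, h5, -⟩ := h3 _ (P_nbc (hstep 0)) _ (P_nbc (hstep 1))
    fin_cases i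
    · exact h4 (congrArg Fin.val h)
    · exact h5 (congrArg Fin.val h)
  | chase c c' r hstep h ih =>
    intro hs
    obtain ⟨-, -, h3⟩ := safe_spec _ _ _ hs
    obtain ⟨-, -, x, hx, hx2⟩ := h3 _ (P_nbc (hstep 0)) _ (P_nbc (hstep 1))
    obtain ⟨v, hv, hPv⟩ := nbc_P hx
    subst hv
    exact ih v hPv hx2

theorem not_two : ¬ CopsWin P 2 := by
  rintro ⟨c, hc⟩
  have h0 := startCheck_true
  unfold startCheck at h0
  simp only [List.all_eq_true, List.mem_range, List.any_eq_true] at h0
  obtain ⟨r, hr, hs⟩ := h0 (c 0) (c 0).2 (c 1) (c 1).2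
  exact no_win c ⟨r, hr⟩ (hc _) hs

/-- More cops are at least as good. -/
theorem copWin_comp {V : Type*} {R : V → V → Prop} {k m : ℕ} (f : Fin m → Fin k)
    (hf : Function.Surjective f) {c : Fin k → V} {r : V} (h : CopWin R c r) :
    CopWin R (c ∘ f) r := by
  induction h with
  | caught c r i h =>
    obtain ⟨j, rfl⟩ := hf i
    exact CopWin.caught _ _ j h
  | capture c c' r hstep i h =>
    obtain ⟨j, rfl⟩ := hf i
    exact CopWin.capture _ (c' ∘ f) _ (fun i => hstep _) j h
  | chase c c' r hstep h ih =>
    exact CopWin.chase _ (c' ∘ f) _ (fun i => hstep _) ih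

theorem not_zero : ¬ CopsWin P 0 := by
  rintro ⟨c, hc⟩
  have key : ∀ (c : Fin 0 → Fin 18) (r : Fin 18), CopWin P c r → False := by
    intro c r hw
    induction hw with
    | caught c r i h => exact i.elim0
    | capture c c' r hstep i h => exact i.elim0
    | chase c c' r hstep h ih => exact ih r (Or.inl rfl)
  exact key c 0 (hc 0)

theorem not_one : ¬ CopsWin P 1 := by
  rintro ⟨c, hc⟩
  apply not_two
  refine ⟨c ∘ (fun _ => 0), fun r => copWin_comp _ ?_ (hc r)⟩
  intro i
  exact ⟨0, Subsingleton.elim _ _⟩

theorem three_le : 3 ≤ passiveCopNumber G := by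
  unfold passiveCopNumber
  apply le_csInf
  · exact ⟨18, id, fun r => CopWin.caught _ _ r rfl⟩
  · intro k hk
    by_contra hlt
    have : k = 0 ∨ k = 1 ∨ k = 2 := by omega
    rcases this with rfl | rfl | rfl
    · exact not_zero hk
    · exact not_one hk
    · exact not_two hk

/-! ### Two cops win the fully active game -/

/-- The strategy: in the position `(a, b, r)` (cops at `a`, `b`, robber at `r`, cops to move)
the cops move to `(a', b')`; positions in order of increasing length of the remaining play. -/
def strat : List (ℕ × ℕ × ℕ × ℕ × ℕ) :=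
  [(1, 12, 0, 11, 0),
   (1, 13, 4, 11, 4),
   (1, 13, 5, 11, 5),
   (1, 13, 8, 11, 8),
   (2, 12, 0, 11, 0),
   (2, 12, 5, 11, 5),
   (2, 15, 6, 11, 6),
   (2, 17, 11, 11, 1),
   (3, 11, 12, 12, 1),
   (3, 16, 15, 15, 0),
   (4, 12, 0, 9, 0),
   (4, 12, 9, 9, 0),
   (4, 15, 9, 9, 3),
   (5, 11, 12, 12, 1),
   (5, 11, 14, 14, 1),
   (6, 17, 1, 9, 1),
   (8, 16, 14, 14, 0),
   (8, 16, 15, 15, 0),
   (9, 3, 15, 0, 15),
   (11, 3, 12, 1, 12),
   (11, 3, 15, 1, 15),
   (11, 3, 17, 1, 17),
   (11, 5, 12, 1, 12),
   (11, 5, 14, 1, 14),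
   (12, 1, 0, 0, 11),
   (13, 1, 4, 4, 11),
   (13, 1, 5, 5, 11),
   (13, 1, 8, 8, 11),
   (14, 3, 2, 2, 12),
   (14, 3, 4, 4, 12),
   (14, 3, 5, 5, 12),
   (14, 3, 7, 7, 12),
   (14, 3, 8, 8, 12),
   (14, 3, 12, 2, 12),
   (14, 3, 13, 2, 13),
   (14, 3, 15, 2, 15),
   (14, 3, 17, 2, 17),
   (16, 3, 15, 0, 15),
   (16, 8, 14, 0, 14),
   (16, 8, 15, 0, 15),
   (17, 0, 1, 1, 9),
   (17, 6, 1, 1, 9),
   (1, 13, 2, 11, 5),
   (1, 13, 7, 16, 8),
   (13, 1, 2, 5, 11),
   (13, 1, 7, 8, 16),
   (14, 3, 10, 2, 12),
   (3, 11, 14, 13, 1),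
   (3, 16, 14, 13, 1),
   (11, 3, 14, 1, 13),
   (16, 3, 14, 1, 13),
   (1, 12, 7, 16, 3),
   (6, 17, 2, 11, 3),
   (12, 1, 7, 3, 16),
   (17, 0, 7, 3, 16),
   (17, 6, 2, 3, 11),
   (2, 17, 16, 12, 1),
   (4, 12, 16, 17, 0),
   (4, 15, 11, 17, 6),
   (9, 3, 11, 6, 17),
   (11, 3, 16, 1, 12),
   (2, 12, 1, 11, 3),
   (2, 12, 7, 11, 3),
   (2, 15, 1, 11, 3),
   (4, 12, 6, 9, 3),
   (14, 3, 0, 4, 12),
   (14, 3, 1, 2, 17),
   (14, 3, 6, 4, 15),
   (14, 3, 9, 4, 12),
   (14, 3, 11, 2, 15),
   (14, 3, 16, 2, 12)]

def code (a b r : ℕ) : ℕ := 18 * (18 * a + b) + r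

/-- The position is won at once, or is in the table `M` of positions already known to be won. -/
def known (M a b r : ℕ) : Bool := a == r || b == r || M.testBit (code a b r)

def stratCheck : List (ℕ × ℕ × ℕ × ℕ × ℕ) → ℕ → Option ℕ
  | [], M => some M
  | (a, b, r, a', b') :: l, M =>
    if a < 18 && b < 18 && r < 18 && (nb a).elem a' && (nb b).elem b' &&
        (a' == r || b' == r || (nb r).all fun r' => known M a' b' r')
    then stratCheck l (M ||| (1 <<< code a b r)) else none

def finalCheck : Bool :=
  match stratCheck strat 0 with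
  | none => false
  | some M => (List.range 18).all fun r => known M 14 3 r

theorem finalCheck_true : finalCheck = true := by decide +kernel

/-- All positions in the table are won. -/
def Sound (M : ℕ) : Prop :=
  ∀ a b r : Fin 18, M.testBit (code a b r) = true → CopWin G.Adj ![a, b] r

theorem known_win {M : ℕ} (hM : Sound M) (a b r : Fin 18) (h : known M a b r = true) :
    CopWin G.Adj ![a, b] r := by
  unfold known at h
  simp only [Bool.or_eq_true, beq_iff_eq] at h
  rcases h with (h | h) | h
  · exact CopWin.caught _ _ 0 (Fin.ext h)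
  · exact CopWin.caught _ _ 1 (Fin.ext h)
  · exact hM a b r h

theorem code_inj {a b r a' b' r' : ℕ} (hb : b < 18) (hr : r < 18) (hb' : b' < 18)
    (hr' : r' < 18) (h : code a b r = code a' b' r') : a = a' ∧ b = b' ∧ r = r' := by
  unfold code at h
  omega

theorem strat_sound : ∀ (l : List (ℕ × ℕ × ℕ × ℕ × ℕ)) (M M' : ℕ), Sound M →
    stratCheck l M = some M' → Sound M' := by
  intro l
  induction l with
  | nil =>
    intro M M' hM h
    simp only [stratCheck, Option.some.injEq] at h
    exact h ▸ hM
  | cons x l ih =>
    obtain ⟨a, b, r, a', b'⟩ := x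
    intro M M' hM h
    unfold stratCheck at h
    split_ifs at h with hc
    simp only [Bool.and_eq_true, decide_eq_true_eq, List.elem_eq_mem, Bool.or_eq_true,
      beq_iff_eq, List.all_eq_true] at hc
    obtain ⟨⟨⟨⟨⟨ha, hb⟩, hr⟩, ha'⟩, hb'⟩, hcase⟩ := hc
    refine ih _ _ ?_ h
    intro u v w huvw
    rw [Nat.testBit_or, Bool.or_eq_true] at huvw
    rcases huvw with huvw | huvw
    · exact hM u v w huvw
    · rw [Nat.one_shiftLeft, Nat.testBit_two_pow, decide_eq_true_eq] at huvw
      obtain ⟨e1, e2, e3⟩ := code_inj hb hr v.2 w.2 huvw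
      subst e1 e2 e3
      have hstep : ∀ i : Fin 2, G.Adj ((![u, v] : Fin 2 → Fin 18) i)
          ((![⟨a', nb_lt u a' ha'⟩, ⟨b', nb_lt v b' hb'⟩] : Fin 2 → Fin 18) i) := by
        intro i
        fin_cases i
        · exact ha'
        · exact hb'
      rcases hcase with (h1 | h1) | h1
      · exact CopWin.capture _ _ _ hstep 0 (Fin.ext h1)
      · exact CopWin.capture _ _ _ hstep 1 (Fin.ext h1)
      · refine CopWin.chase _ _ _ hstep ?_
        intro r' hr'
        exact known_win hM _ _ _ (h1 r' hr')

theorem two_win : CopsWin G.Adj 2 := by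
  have h0 := finalCheck_true
  unfold finalCheck at h0
  split at h0
  · exact absurd h0 (by simp)
  · rename_i M hM
    have hs : Sound M := strat_sound strat 0 M (by intro a b r h; simp at h) hM
    refine ⟨![14, 3], fun r => ?_⟩
    simp only [List.all_eq_true, List.mem_range] at h0
    exact known_win hs 14 3 r (h0 r r.2)

theorem active_le : activeCopNumber G ≤ 2 := Nat.sInf_le two_win

/-! ### The graph is connected and bipartite -/

theorem G_colorable : G.Colorable 2 := by
  refine ⟨⟨fun v => if (v : ℕ) < 9 then 0 else 1, ?_⟩⟩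
  intro u v h
  have key : ∀ u v : Fin 18, (v : ℕ) ∈ nb u →
      (if (u : ℕ) < 9 then (0 : Fin 2) else 1) ≠ (if (v : ℕ) < 9 then 0 else 1) := by
    decide +kernel
  exact key u v h

/-- A parent of every vertex other than `0`, closer to `0`. -/
def par (i : ℕ) : ℕ := List.getD [0, 16, 12, 12, 9, 12, 9, 16, 13, 0, 5, 6, 0, 4, 4, 6, 0, 4] i 0

/-- Distance to the vertex `0`. -/
def lvl (i : ℕ) : ℕ := List.getD [0, 2, 2, 2, 2, 2, 2, 2, 4, 1, 3, 3, 1, 3, 3, 3, 1, 3] i 0

theorem par_spec : ∀ v : Fin 18, v ≠ 0 → (par v) ∈ nb v ∧ lvl (par v) < lvl v := by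
  decide +kernel

theorem reach : ∀ (n : ℕ) (v : Fin 18), lvl v < n → G.Reachable v 0 := by
  intro n
  induction n with
  | zero => intro v h; exact absurd h (by omega)
  | succ n ih =>
    intro v h
    by_cases hv : v = 0
    · rw [hv]
    · obtain ⟨h1, h2⟩ := par_spec v hv
      have hadj : G.Adj v ⟨par v, nb_lt v _ h1⟩ := h1
      exact hadj.reachable.trans (ih ⟨par v, nb_lt v _ h1⟩ (by show lvl (par v) < n; omega))

theorem G_connected : G.Connected := by
  refine SimpleGraph.Connected.mk ?_
  intro u v
  exact (reach _ u (Nat.lt_succ_self _)).trans (reach _ v (Nat.lt_succ_self _)).symm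

/-- There is a connected bipartite graph (on 18 vertices) whose fully active cop number is
smaller than its cop number. -/
theorem result : ∃ H : SimpleGraph (Fin 18), H.Connected ∧ H.Colorable 2 ∧
    activeCopNumber H < passiveCopNumber H :=
  ⟨G, G_connected, G_colorable, lt_of_le_of_lt active_le (by have := three_le; omega)⟩

end Pool.Agent.Results.MP_1e2692_co.ActiveBeatsPassive
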